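import Mathlib
import Pool.Agent.Helper7.SR.Goals

set_option autoImplicit false

namespace Pool.Agent.Helper2.SR

open Finset
open scoped Classical
open Pool.Agent.Helper7.SR

theorem dens_mono {α : Type*} {M : Matroid α} {R R' : Finset α} {q : ℕ} (h : Dens M R q)
    (hR : R' ⊆ R) : Dens M R' q := by
  refine ⟨fun x hx => h.1 (hR hx), fun I hI hI' => ?_⟩
  exact (card_le_card (filter_subset_filter _ hR)).trans (h.2 I (hI.trans hR) hI')

/-- A common independent set of maximum size is large. -/
theorem large.{u} (hEX : S_EX.{u}) {α : Type u} {M N : Matroid α} {R : Finset α} {q : ℕ}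
    (hq : 1 ≤ q) (hM : Dens M R q) (hN : Dens N R q) :
    ∃ T : Finset α, T ⊆ R ∧ M.Indep (T : Set α) ∧ N.Indep (T : Set α) ∧
      R.card ≤ 2 * q * T.card := by
  have hne : (R.powerset.filter
      (fun T : Finset α => M.Indep (T : Set α) ∧ N.Indep (T : Set α))).Nonempty := by
    refine ⟨∅, ?_⟩
    simp
  obtain ⟨T, hT, hmax⟩ := exists_max_image _ Finset.card hne
  simp only [mem_filter, mem_powerset] at hT hmax
  obtain ⟨hTR, hTM, hTN⟩ := hT
  refine ⟨T, hTR, hTM, hTN, ?_⟩
  have key := hEX α M N R T q 1 1 (fun _ => 1) hq le_rfl hTR hTM hTN hM hN (by norm_num)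
    (fun _ => by norm_num) ?_
  · simp only [sum_const, nsmul_eq_mul, mul_one] at key
    have h1 : (R \ T).card + T.card = R.card := card_sdiff_add_card_eq_card hTR
    have h2 : ((R \ T).card : ℝ) + (T.card : ℝ) = (R.card : ℝ) := by exact_mod_cast h1
    have h3 : (0 : ℝ) ≤ (T.card : ℝ) := Nat.cast_nonneg _
    have h4 : (R.card : ℝ) ≤ 2 * q * T.card := by
      have : ((1 : ℕ) : ℝ) = 1 := by norm_num
      rw [this] at key
      nlinarith
    exact_mod_cast h4
  · intro E Q hE hQ _ _ hM' hN'
    simp only [sum_const, nsmul_eq_mul, mul_one, one_mul]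
    have h1 := hmax ((T \ Q) ∪ E) ⟨union_subset (sdiff_subset.trans hTR) (hE.trans sdiff_subset),
      hM', hN'⟩
    have hd : Disjoint (T \ Q) E := by
      rw [Finset.disjoint_left]
      intro a ha ha'
      exact (mem_sdiff.mp (hE ha')).2 (mem_sdiff.mp ha).1
    rw [card_union_of_disjoint hd] at h1
    have h2 : (T \ Q).card + Q.card = T.card := card_sdiff_add_card_eq_card hQ
    have h3 : E.card ≤ Q.card := by omega
    exact_mod_cast h3

theorem cover_succ {α : Type*} {M N : Matroid α} {R T : Finset α} {m : ℕ} (hTR : T ⊆ R)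
    (hM : M.Indep (T : Set α)) (hN : N.Indep (T : Set α)) (h : Cover M N (R \ T) m) :
    Cover M N R (m + 1) := by
  obtain ⟨S, hS, hd, hU⟩ := h
  have hsub : ∀ i, S i ⊆ R \ T := by
    intro i
    rw [hU]
    exact subset_biUnion_of_mem S (mem_univ i)
  have hdT : ∀ i, Disjoint T (S i) := by
    intro i
    rw [Finset.disjoint_left]
    intro a ha ha'
    exact (mem_sdiff.mp (hsub i ha')).2 ha
  refine ⟨Fin.cons T S, ?_, ?_, ?_⟩
  · intro i
    refine Fin.cases ?_ (fun j => ?_) i
    · exact ⟨hM, hN⟩
    · exact hS j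
  · intro i j
    refine Fin.cases ?_ (fun i' => ?_) i <;> refine Fin.cases ?_ (fun j' => ?_) j
    · intro h; exact absurd rfl h
    · intro _; simpa using hdT j'
    · intro _; simpa using (hdT i').symm
    · intro h
      simpa using hd i' j' (fun e => h (by rw [e]))
  · ext a
    simp only [mem_biUnion, mem_univ, true_and]
    constructor
    · intro ha
      by_cases hT : a ∈ T
      · exact ⟨0, by simpa using hT⟩
      · have h1 : a ∈ R \ T := mem_sdiff.mpr ⟨ha, hT⟩
        rw [hU] at h1
        obtain ⟨i, _, hi⟩ := mem_biUnion.mp h1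
        exact ⟨i.succ, by simpa using hi⟩
    · rintro ⟨i, hi⟩
      revert hi
      refine Fin.cases ?_ (fun j => ?_) i
      · intro h; exact hTR (by simpa using h)
      · intro h
        exact (mem_sdiff.mp (hsub j (by simpa using h))).1

theorem cov_aux.{u} (hEX : S_EX.{u}) {α : Type u} (M N : Matroid α) (q : ℕ) (hq : 1 ≤ q) :
    ∀ (n : ℕ) (R : Finset α), R.card = n → Dens M R q → Dens N R q →
      ∃ m : ℕ, (m : ℝ) ≤ 2 * q * Real.log (R.card : ℝ) + 1 ∧ Cover M N R m := by
  intro n
  induction n using Nat.strong_induction_on with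
  | _ n ih =>
    intro R hRn hM hN
    rcases R.eq_empty_or_nonempty with rfl | hne
    · refine ⟨0, by simp, Fin.elim0, fun i => i.elim0, fun i => i.elim0, by simp⟩
    · obtain ⟨T, hTR, hTM, hTN, hcard⟩ := large hEX hq hM hN
      have hRpos : 0 < R.card := card_pos.mpr hne
      have hTpos : 0 < T.card := by
        rcases Nat.eq_zero_or_pos T.card with h | h
        · rw [h] at hcard; omega
        · exact h
      have h1 : (R \ T).card + T.card = R.card := card_sdiff_add_card_eq_card hTR
      obtain ⟨m, hm, hc⟩ := ih (R \ T).card (by omega) (R \ T) rfl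
        (dens_mono hM sdiff_subset) (dens_mono hN sdiff_subset)
      have hq' : (1 : ℝ) ≤ (q : ℝ) := by exact_mod_cast hq
      have hR1 : (1 : ℝ) ≤ (R.card : ℝ) := by exact_mod_cast hRpos
      rcases Nat.eq_zero_or_pos (R \ T).card with h0 | h0
      · -- `T = R`
        refine ⟨1, ?_, ?_⟩
        · have := Real.log_nonneg hR1
          have : 0 ≤ 2 * (q : ℝ) * Real.log (R.card : ℝ) := by positivity
          push_cast
          linarith
        · have h2 : R \ T = ∅ := card_eq_zero.mp h0
          apply cover_succ hTR hTM hTN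
          rw [h2]
          exact ⟨Fin.elim0, fun i => i.elim0, fun i => i.elim0, by simp⟩
      · refine ⟨m + 1, ?_, cover_succ hTR hTM hTN hc⟩
        have h3 : (0 : ℝ) < ((R \ T).card : ℝ) := by exact_mod_cast h0
        have h4 : ((R \ T).card : ℝ) + (T.card : ℝ) = (R.card : ℝ) := by exact_mod_cast h1
        have h5 : (R.card : ℝ) ≤ 2 * q * T.card := by exact_mod_cast hcard
        have hR0 : (0 : ℝ) < (R.card : ℝ) := by linarith
        -- logarithm
        have h6 : Real.log (((R \ T).card : ℝ) / (R.card : ℝ)) ≤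
            ((R \ T).card : ℝ) / (R.card : ℝ) - 1 :=
          Real.log_le_sub_one_of_pos (div_pos h3 hR0)
        rw [Real.log_div h3.ne' hR0.ne'] at h6
        have h7 : ((R \ T).card : ℝ) / (R.card : ℝ) - 1 = - ((T.card : ℝ) / (R.card : ℝ)) := by
          field_simp
          linarith
        rw [h7] at h6
        have h8 : 1 ≤ 2 * (q : ℝ) * ((T.card : ℝ) / (R.card : ℝ)) := by
          rw [← mul_div_assoc, le_div_iff₀ hR0]
          linarith
        have h9 : 2 * (q : ℝ) * (Real.log ((R \ T).card : ℝ) - Real.log (R.card : ℝ)) ≤ -1 := by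
          have h10 : 2 * (q : ℝ) * (Real.log ((R \ T).card : ℝ) - Real.log (R.card : ℝ)) ≤
              2 * (q : ℝ) * (- ((T.card : ℝ) / (R.card : ℝ))) :=
            mul_le_mul_of_nonneg_left h6 (by positivity)
          linarith
        push_cast
        linarith

theorem s_cov.{u} (h : Pool.Agent.Helper7.SR.S_EX.{u}) : Pool.Agent.Helper7.SR.S_COV.{u} := by
  intro α M N R q hq hM hN
  obtain ⟨m, hm, hc⟩ := cov_aux h M N q hq R.card R rfl hM hN
  refine ⟨m, hm.trans ?_, hc⟩
  have h1 : Real.log (R.card : ℝ) ≤ Real.log ((R.card : ℝ) + 1) := by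
    rcases Nat.eq_zero_or_pos R.card with h0 | h0
    · rw [h0]; simp
    · exact Real.log_le_log (by exact_mod_cast h0) (by linarith)
  have h2 : 2 * (q : ℝ) * Real.log (R.card : ℝ) ≤ 2 * (q : ℝ) * Real.log ((R.card : ℝ) + 1) :=
    mul_le_mul_of_nonneg_left h1 (by positivity)
  linarith

end Pool.Agent.Helper2.SR
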