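import Pool.Agent.Helper47.SR.Goals

namespace Pool.Agent.Helper2.SR

open Finset Pool.Agent.Helper47.SR

theorem goal_INVC : Goal_INVC := by
  classical
  intro n H hs
  let Q := MulAction.orbitRel.Quotient H (Fin n)
  haveI : Fintype Q := Fintype.ofFinite _
  let π : Fin n → Q := fun x => Quotient.mk'' x
  have hπ : ∀ x y, π x = π y ↔ ∃ γ ∈ H, γ y = x := by
    intro x y
    have h1 : π x = π y ↔ (MulAction.orbitRel H (Fin n)) x y := Quotient.eq''
    rw [h1, MulAction.orbitRel_apply]
    constructor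
    · rintro ⟨γ, hγ⟩
      exact ⟨γ.1, γ.2, hγ⟩
    · rintro ⟨γ, hγ, h2⟩
      exact ⟨⟨γ, hγ⟩, h2⟩
  have key : ∀ A : Finset (Fin n), (∀ γ ∈ H, mv γ A = A) → ∀ x y, x ∈ A → π y = π x → y ∈ A := by
    intro A hA x y hx hxy
    obtain ⟨γ, hγ, h2⟩ := (hπ y x).1 hxy
    rw [← hA γ hγ, Finset.mem_map]
    exact ⟨x, hx, h2⟩
  have hfib : ∀ x, #((univ : Finset (Fin n)).filter (fun y => π y = π x)) = Nat.card H := by
    intro x
    have h1 : (univ : Finset (Fin n)).filter (fun y => π y = π x) =
        (univ : Finset ↥H).image (fun γ : ↥H => (γ : Equiv.Perm (Fin n)) x) := by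
      ext y
      simp only [Finset.mem_filter, Finset.mem_univ, true_and, Finset.mem_image, hπ]
      constructor
      · rintro ⟨γ, hγ, h2⟩
        exact ⟨⟨γ, hγ⟩, h2⟩
      · rintro ⟨γ, h2⟩
        exact ⟨γ.1, γ.2, h2⟩
    rw [h1, Finset.card_image_of_injective, Finset.card_univ, Nat.card_eq_fintype_card]
    intro γ γ' h2
    by_contra hne
    have h3 : ((γ'⁻¹ * γ : H) : Equiv.Perm (Fin n)) ≠ 1 := by
      intro h4
      apply hne
      have h5 : γ'⁻¹ * γ = 1 := Subtype.ext h4
      exact (inv_mul_eq_one.1 h5).symm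
    apply hs _ (γ'⁻¹ * γ).2 h3 x
    simp only [Subgroup.coe_mul, Subgroup.coe_inv, Equiv.Perm.coe_mul, Function.comp_apply]
    rw [Equiv.Perm.inv_eq_iff_eq]
    exact h2
  have hcard : ∀ A : Finset (Fin n), (∀ γ ∈ H, mv γ A = A) →
      #A = Nat.card H * #(A.image π) := by
    intro A hA
    rw [Finset.card_eq_sum_card_image π A]
    rw [Finset.sum_congr rfl (g := fun _ => Nat.card H), Finset.sum_const, smul_eq_mul, mul_comm]
    intro q hq
    obtain ⟨x, hx, rfl⟩ := Finset.mem_image.1 hq
    rw [← hfib x]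
    congr 1
    ext y
    simp only [Finset.mem_filter, Finset.mem_univ, true_and]
    exact ⟨fun h => h.2, fun h => ⟨key A hA x y hx h, h⟩⟩
  have hinj : ∀ A B : Finset (Fin n), (∀ γ ∈ H, mv γ A = A) → (∀ γ ∈ H, mv γ B = B) →
      A.image π = B.image π → A ⊆ B := by
    intro A B hA hB hAB x hx
    have h1 : π x ∈ B.image π := hAB ▸ Finset.mem_image_of_mem π hx
    obtain ⟨y, hy, hyx⟩ := Finset.mem_image.1 h1
    exact key B hB y x hy hyx.symm
  have hHpos : 0 < Nat.card H := Nat.card_pos
  have huniv : n = Nat.card H * Fintype.card Q := by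
    have h1 := hcard univ (fun γ _ => by ext x; simp)
    have h2 : (univ : Finset (Fin n)).image π = univ := by
      ext q
      simp only [Finset.mem_image, Finset.mem_univ, true_and, iff_true]
      exact Quotient.inductionOn' q fun x => ⟨x, rfl⟩
    rw [h2, Finset.card_univ, Finset.card_univ, Fintype.card_fin] at h1
    exact h1
  have hQ : n / Nat.card H = Fintype.card Q := Nat.div_eq_of_eq_mul_right hHpos huniv
  refine ⟨?_, ?_⟩
  · intro j inst
    rw [hQ, ← Finset.card_univ, ← Finset.card_powersetCard]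
    refine Finset.card_le_card_of_injOn (fun A => A.image π) ?_ ?_
    · intro A hA
      have hA' := Finset.mem_filter.1 (Finset.mem_coe.1 hA)
      have hj : #A = j := (Finset.mem_powersetCard.1 hA'.1).2
      have h1 := hcard A hA'.2
      rw [Finset.mem_coe, Finset.mem_powersetCard]
      refine ⟨Finset.subset_univ _, ?_⟩
      rw [← hj, h1, Nat.mul_div_cancel_left _ hHpos]
    · intro A hA B hB hAB
      have hA' := (Finset.mem_filter.1 (Finset.mem_coe.1 hA)).2
      have hB' := (Finset.mem_filter.1 (Finset.mem_coe.1 hB)).2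
      exact Finset.Subset.antisymm (hinj A B hA' hB' hAB) (hinj B A hB' hA' hAB.symm)
  · intro inst
    rw [hQ, ← Finset.card_univ, ← Finset.card_powerset]
    refine Finset.card_le_card_of_injOn (fun A => A.image π) ?_ ?_
    · intro A hA
      simp
    · intro A hA B hB hAB
      have hA' := (Finset.mem_filter.1 (Finset.mem_coe.1 hA)).2
      have hB' := (Finset.mem_filter.1 (Finset.mem_coe.1 hB)).2
      exact Finset.Subset.antisymm (hinj A B hA' hB' hAB) (hinj B A hB' hA' hAB.symm)

end Pool.Agent.Helper2.SR
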